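import Mathlib
import Pool.Agent.Helper638.Data15

set_option autoImplicit false

/-! The groups `M_n` are infinite for every positive `n` divisible by fifteen. -/

namespace Pool.Agent.Results.MP_cf54d7_al.MultiplesOf15

open Pool.Agent.Helper638

/-- the two relators, in the form of the problem -/
def rel2 (n : ℕ) : Fin 2 → FreeGroup (Fin 2) :=
  ![(FreeGroup.of 0)⁻¹ * (FF (FreeGroup.of 1))^[n] (FreeGroup.of 0),
    (FreeGroup.of 1)⁻¹ * (FF (FreeGroup.of 0))^[n] (FreeGroup.of 1)]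

lemma psi_rel2 {A : Type} [AddCommGroup A] (h2 : ∀ a : A, a + a = 0) (u : Fin 2 → Fin 15 → A)
    (hu : ∀ l, ∑ p ∈ RR l, u p.1 p.2 = 0) (a : ℕ) (j : Fin 2) :
    psi sg u (rel2 (15 * a) j) = 1 := by
  have hA := psi_A h2 u hu
  have hB := psi_B h2 u hu
  rw [map_FF_iterate] at hA hB
  fin_cases j
  · change psi sg u ((FreeGroup.of 0)⁻¹ * (FF (FreeGroup.of 1))^[15 * a] (FreeGroup.of 0)) = 1
    rw [map_mul, map_inv, map_FF_iterate, Function.iterate_mul, Function.iterate_fixed hA,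
      inv_mul_cancel]
  · change psi sg u ((FreeGroup.of 1)⁻¹ * (FF (FreeGroup.of 0))^[15 * a] (FreeGroup.of 1)) = 1
    rw [map_mul, map_inv, map_FF_iterate, Function.iterate_mul, Function.iterate_fixed hB,
      inv_mul_cancel]

lemma infinite_rel2 (a : ℕ) : Infinite (PresentedGroup (Set.range (rel2 (15 * a)))) := by
  refine infinite_of_criterion (ZMod 2) (rel2 (15 * a)) sg 0 ?_ ?_ 6 RR ?_ 4 (by norm_num)
    (by simp) (by simp)
  · intro j
    exact (lift_eq_one_of_psi (A := ZMod 2) 0 _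
      (psi_rel2 (fun a => CharTwo.add_self_eq_zero a) 0 (by simp) a j)).1
  · intro x
    exact ⟨_, by rw [lift_wd]; exact wd_spec x⟩
  · intro A _ _ u hu j ω
    have h2 : ∀ a : A, a + a = 0 := by
      intro a
      rw [← two_smul (ZMod 2) a, show (2 : ZMod 2) = 0 from rfl, zero_smul]
    exact congrFun (lift_eq_one_of_psi u _ (psi_rel2 h2 u hu a j)).2 ω

/-- For every `n` divisible by fifteen the group
`⟨x, y | x = [x,y,...,y], y = [y,x,...,x]⟩` (with `n` copies) is infinite. -/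
theorem result (n : ℕ) (hn : 15 ∣ n) :
    Infinite (PresentedGroup
      ({(FreeGroup.of (0 : Fin 2))⁻¹ *
          Nat.iterate (fun w : FreeGroup (Fin 2) =>
            w⁻¹ * (FreeGroup.of (1 : Fin 2))⁻¹ * w * FreeGroup.of (1 : Fin 2)) n
            (FreeGroup.of (0 : Fin 2)),
        (FreeGroup.of (1 : Fin 2))⁻¹ *
          Nat.iterate (fun w : FreeGroup (Fin 2) =>
            w⁻¹ * (FreeGroup.of (0 : Fin 2))⁻¹ * w * FreeGroup.of (0 : Fin 2)) n
            (FreeGroup.of (1 : Fin 2))} : Set (FreeGroup (Fin 2)))) := by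
  obtain ⟨a, rfl⟩ := hn
  have hinf := infinite_rel2 a
  have e : Set.range (rel2 (15 * a)) =
      ({(FreeGroup.of (0 : Fin 2))⁻¹ *
          Nat.iterate (fun w : FreeGroup (Fin 2) =>
            w⁻¹ * (FreeGroup.of (1 : Fin 2))⁻¹ * w * FreeGroup.of (1 : Fin 2)) (15 * a)
            (FreeGroup.of (0 : Fin 2)),
        (FreeGroup.of (1 : Fin 2))⁻¹ *
          Nat.iterate (fun w : FreeGroup (Fin 2) =>
            w⁻¹ * (FreeGroup.of (0 : Fin 2))⁻¹ * w * FreeGroup.of (0 : Fin 2)) (15 * a)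
            (FreeGroup.of (1 : Fin 2))} : Set (FreeGroup (Fin 2))) := by
    rw [rel2, Matrix.range_cons, Matrix.range_cons, Matrix.range_empty,
      Set.union_empty, Set.singleton_union]
    rfl
  rw [e] at hinf
  exact hinf

end Pool.Agent.Results.MP_cf54d7_al.MultiplesOf15
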